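import Mathlib

set_option autoImplicit false

namespace Pool.Agent.Results.MP_c699aa_gt.Full

open MeasureTheory Metric Filter Topology

/-- One-dimensional measure of the section of `A` by the line `x + ℝ u`. -/
noncomputable def ell {n : ℕ} (u : EuclideanSpace ℝ (Fin n)) (A : Set (EuclideanSpace ℝ (Fin n)))
    (x : EuclideanSpace ℝ (Fin n)) : ENNReal :=
  volume {t : ℝ | x + t • u ∈ A}

/-- Steiner symmetrization of `A` in the direction `u`. -/
def steiner {n : ℕ} (u : EuclideanSpace ℝ (Fin n)) (A : Set (EuclideanSpace ℝ (Fin n))) :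
    Set (EuclideanSpace ℝ (Fin n)) :=
  {z | ∃ x ∈ (fun y => y - inner ℝ y u • u) '' A, ∃ t : ℝ,
    ENNReal.ofReal |t| ≤ ell u A x / 2 ∧ z = x + t • u}

/-- The successive symmetrizations `E_0 = A`, `E_{i+1} = S_{u_i} E_i`. -/
def iter {n : ℕ} (u : ℕ → EuclideanSpace ℝ (Fin n)) (A : Set (EuclideanSpace ℝ (Fin n))) :
    ℕ → Set (EuclideanSpace ℝ (Fin n))
  | 0 => A
  | i + 1 => steiner (u i) (iter u A i)

variable {n : ℕ}

lemma ell_add (u : EuclideanSpace ℝ (Fin n)) (A : Set (EuclideanSpace ℝ (Fin n)))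
    (x : EuclideanSpace ℝ (Fin n)) (s : ℝ) : ell u A (x + s • u) = ell u A x := by
  unfold ell
  rw [← measure_preimage_add volume s {t : ℝ | x + t • u ∈ A}]
  congr 1
  ext t
  simp only [Set.mem_setOf_eq, Set.mem_preimage, add_smul, add_assoc]

lemma ell_meas (u : EuclideanSpace ℝ (Fin n)) {F : Set (EuclideanSpace ℝ (Fin n))}
    (hF : MeasurableSet F) : Measurable (ell u F) := by
  have : MeasurableSet {p : EuclideanSpace ℝ (Fin n) × ℝ | p.1 + p.2 • u ∈ F} :=
    (by fun_prop : Measurable fun p : EuclideanSpace ℝ (Fin n) × ℝ => p.1 + p.2 • u) hF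
  exact measurable_measure_prodMk_left this

lemma vol_eq (u : EuclideanSpace ℝ (Fin n)) (hu : ‖u‖ = 1) {F : Set (EuclideanSpace ℝ (Fin n))}
    (hF : MeasurableSet F) :
    volume F = ∫⁻ x in {x : EuclideanSpace ℝ (Fin n) | |inner ℝ x u| ≤ 1 / 2}, ell u F x := by
  have huu : inner ℝ u u = (1 : ℝ) := by rw [real_inner_self_eq_norm_sq, hu]; norm_num
  have m0 : MeasurableSet {x : EuclideanSpace ℝ (Fin n) | |inner ℝ x u| ≤ 1 / 2} :=
    (isClosed_le (by fun_prop) continuous_const).measurableSet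
  have m1 : MeasurableSet {p : EuclideanSpace ℝ (Fin n) × ℝ |
      |inner ℝ p.1 u| ≤ 1 / 2 ∧ p.1 + p.2 • u ∈ F} :=
    (measurable_fst m0).inter
      ((by fun_prop : Measurable fun p : EuclideanSpace ℝ (Fin n) × ℝ => p.1 + p.2 • u) hF)
  have m2' : IsClosed {p : EuclideanSpace ℝ (Fin n) × ℝ | |inner ℝ p.1 u - p.2| ≤ 1 / 2} :=
    isClosed_le (by fun_prop) continuous_const
  have m2 : MeasurableSet {p : EuclideanSpace ℝ (Fin n) × ℝ |
      |inner ℝ p.1 u - p.2| ≤ 1 / 2 ∧ p.1 ∈ F} := m2'.measurableSet.inter (measurable_fst hF)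
  have e1 := Measure.prod_apply (μ := (volume : Measure (EuclideanSpace ℝ (Fin n))))
    (ν := (volume : Measure ℝ)) m1
  have e2 := Measure.prod_apply_symm (μ := (volume : Measure (EuclideanSpace ℝ (Fin n))))
    (ν := (volume : Measure ℝ)) m1
  have e3 := Measure.prod_apply (μ := (volume : Measure (EuclideanSpace ℝ (Fin n))))
    (ν := (volume : Measure ℝ)) m2
  have e4 := Measure.prod_apply_symm (μ := (volume : Measure (EuclideanSpace ℝ (Fin n))))
    (ν := (volume : Measure ℝ)) m2
  have a1 : ∀ x : EuclideanSpace ℝ (Fin n), volume (Prod.mk x ⁻¹' {p : EuclideanSpace ℝ (Fin n) × ℝ |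
      |inner ℝ p.1 u| ≤ 1 / 2 ∧ p.1 + p.2 • u ∈ F}) =
      {x : EuclideanSpace ℝ (Fin n) | |inner ℝ x u| ≤ 1 / 2}.indicator (ell u F) x := by
    intro x
    by_cases h : |inner ℝ x u| ≤ 1 / 2
    · rw [Set.indicator_of_mem (by exact h)]
      unfold ell
      congr 1
      ext t
      simp only [Set.mem_preimage, Set.mem_setOf_eq, h, true_and]
    · rw [Set.indicator_of_notMem (by exact h)]
      convert measure_empty (μ := (volume : Measure ℝ))
      ext t
      simp only [Set.mem_preimage, Set.mem_setOf_eq, h, false_and, Set.mem_empty_iff_false]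
  have a2 : ∀ y : EuclideanSpace ℝ (Fin n), volume (Prod.mk y ⁻¹' {p : EuclideanSpace ℝ (Fin n) × ℝ |
      |inner ℝ p.1 u - p.2| ≤ 1 / 2 ∧ p.1 ∈ F}) = F.indicator 1 y := by
    intro y
    by_cases h : y ∈ F
    · rw [Set.indicator_of_mem h]
      have : (Prod.mk y ⁻¹' {p : EuclideanSpace ℝ (Fin n) × ℝ |
          |inner ℝ p.1 u - p.2| ≤ 1 / 2 ∧ p.1 ∈ F}) = closedBall (inner ℝ y u) (1 / 2) := by
        ext t
        simp only [Set.mem_preimage, Set.mem_setOf_eq, h, and_true, mem_closedBall, Real.dist_eq,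
          abs_sub_comm]
      rw [this, Real.volume_closedBall]
      simp
    · rw [Set.indicator_of_notMem h]
      convert measure_empty (μ := (volume : Measure ℝ))
      ext t
      simp only [Set.mem_preimage, Set.mem_setOf_eq, h, and_false, Set.mem_empty_iff_false]
  have a3 : ∀ t : ℝ, volume ((fun x => (x, t)) ⁻¹' {p : EuclideanSpace ℝ (Fin n) × ℝ |
      |inner ℝ p.1 u| ≤ 1 / 2 ∧ p.1 + p.2 • u ∈ F}) =
      volume ((fun x => (x, t)) ⁻¹' {p : EuclideanSpace ℝ (Fin n) × ℝ |
      |inner ℝ p.1 u - p.2| ≤ 1 / 2 ∧ p.1 ∈ F}) := by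
    intro t
    rw [← measure_preimage_add_right volume (t • u) ((fun x => (x, t)) ⁻¹'
      {p : EuclideanSpace ℝ (Fin n) × ℝ | |inner ℝ p.1 u - p.2| ≤ 1 / 2 ∧ p.1 ∈ F})]
    congr 1
    ext x
    simp only [Set.mem_preimage, Set.mem_setOf_eq, inner_add_left, inner_smul_left, huu,
      conj_trivial, mul_one, add_sub_cancel_right]
  simp only [a1] at e1
  simp only [a2] at e3
  simp only [a3] at e2
  rw [lintegral_indicator_one hF] at e3
  rw [lintegral_indicator m0] at e1
  rw [← e3, e4, ← e2, e1]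

lemma core (u : EuclideanSpace ℝ (Fin n)) (hu : ‖u‖ = 1) {A F : Set (EuclideanSpace ℝ (Fin n))}
    (hF : MeasurableSet F) (hFA : F ⊆ A) :
    ∃ G, MeasurableSet G ∧ G ⊆ steiner u A ∧ volume F ≤ volume G := by
  have huu : inner ℝ u u = (1 : ℝ) := by rw [real_inner_self_eq_norm_sq, hu]; norm_num
  have hm := ell_meas u hF
  have mG : MeasurableSet {x : EuclideanSpace ℝ (Fin n) | 0 < ell u F x ∧
      ENNReal.ofReal |inner ℝ x u| ≤ ell u F x / 2} :=
    (measurableSet_lt measurable_const hm).inter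
      (measurableSet_le (by fun_prop) (hm.div_const 2))
  refine ⟨_, mG, ?_, ?_⟩
  · rintro x ⟨h0, h1⟩
    obtain ⟨t, ht⟩ := nonempty_of_measure_ne_zero h0.ne'
    refine ⟨x - inner ℝ x u • u, ⟨x + t • u, hFA ht, ?_⟩, inner ℝ x u, h1.trans ?_, by simp⟩
    · simp only [inner_add_left, inner_smul_left, huu, conj_trivial, mul_one, add_smul]
      abel
    · have : ell u A (x - inner ℝ x u • u) = ell u A x := by
        rw [sub_eq_add_neg, ← neg_smul, ell_add]
      rw [this]
      have hle : ell u F x ≤ ell u A x := by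
        unfold ell
        exact measure_mono fun t ht => hFA ht
      exact ENNReal.div_le_div_right hle 2
  · rw [vol_eq u hu hF, vol_eq u hu mG]
    refine lintegral_mono fun x => ?_
    rcases (zero_le (a := ell u F x)).eq_or_lt with h0 | h0
    · rw [← h0]; exact zero_le
    have e : ell u {x : EuclideanSpace ℝ (Fin n) | 0 < ell u F x ∧
        ENNReal.ofReal |inner ℝ x u| ≤ ell u F x / 2} x
        = volume {t : ℝ | ENNReal.ofReal |inner ℝ x u + t| ≤ ell u F x / 2} := by
      conv_lhs => unfold ell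
      congr 1
      ext t
      have := ell_add u F x t
      unfold ell at this h0
      simp only [Set.mem_setOf_eq, this, h0, true_and, inner_add_left, inner_smul_left, huu,
        conj_trivial, mul_one, ell]
    rw [e]
    by_cases htop : ell u F x = ⊤
    · rw [htop]
      have : (⊤ : ENNReal) / 2 = ⊤ := ENNReal.top_div_of_ne_top (by norm_num)
      simp [this]
    · have : {t : ℝ | ENNReal.ofReal |inner ℝ x u + t| ≤ ell u F x / 2}
          = closedBall (-inner ℝ x u) ((ell u F x).toReal / 2) := by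
        ext t
        simp only [Set.mem_setOf_eq, mem_closedBall, Real.dist_eq, sub_neg_eq_add]
        rw [ENNReal.ofReal_le_iff_le_toReal (ENNReal.div_ne_top htop (by norm_num)),
          ENNReal.toReal_div, add_comm t]
        simp
      rw [this, Real.volume_closedBall, mul_div_cancel₀ _ (by norm_num), ENNReal.ofReal_toReal htop]

lemma ball_keep (u : EuclideanSpace ℝ (Fin n)) (hu : ‖u‖ = 1) {A : Set (EuclideanSpace ℝ (Fin n))}
    {R : ℝ} (hA : A ⊆ closedBall 0 R) : steiner u A ⊆ closedBall 0 R := by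
  have huu : inner ℝ u u = (1 : ℝ) := by rw [real_inner_self_eq_norm_sq, hu]; norm_num
  rintro _ ⟨_, ⟨y, hy, rfl⟩, t, ht, rfl⟩
  set x := y - inner ℝ y u • u with hx
  have hxu : inner ℝ x u = 0 := by
    simp only [hx, inner_sub_left, inner_smul_left, huu, conj_trivial, mul_one, sub_self]
  have hn : ∀ s : ℝ, ‖x + s • u‖ ^ 2 = ‖x‖ ^ 2 + s ^ 2 := fun s => by
    rw [norm_add_sq_real, inner_smul_right, hxu, norm_smul, hu]; simp
  have hyR : ‖y‖ ≤ R := by simpa using hA hy
  have hR : 0 ≤ R := (norm_nonneg _).trans hyR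
  have hx2 : 0 ≤ R ^ 2 - ‖x‖ ^ 2 := by
    have := hn (inner ℝ y u)
    rw [hx, sub_add_cancel, ← hx] at this
    nlinarith [pow_le_pow_left₀ (norm_nonneg _) hyR 2, sq_nonneg (inner ℝ y u)]
  have h1 : ell u A x ≤ ENNReal.ofReal (2 * √(R ^ 2 - ‖x‖ ^ 2)) := by
    rw [← Real.volume_closedBall 0]
    refine measure_mono fun s hs => ?_
    have h2 : ‖x + s • u‖ ≤ R := by simpa using hA hs
    have h3 := pow_le_pow_left₀ (norm_nonneg _) h2 2
    rw [hn] at h3
    rw [mem_closedBall, Real.dist_eq, sub_zero]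
    exact Real.abs_le_sqrt (by linarith)
  have h2 : ENNReal.ofReal |t| ≤ ENNReal.ofReal (√(R ^ 2 - ‖x‖ ^ 2)) := by
    refine ht.trans ((ENNReal.div_le_div_right h1 2).trans (le_of_eq ?_))
    rw [ENNReal.ofReal_mul (by norm_num), mul_comm]
    simp only [ENNReal.ofReal_ofNat]
    exact ENNReal.mul_div_cancel_right (by norm_num) (by norm_num)
  have h3 := (ENNReal.ofReal_le_ofReal_iff (Real.sqrt_nonneg _)).1 h2
  have h4 := pow_le_pow_left₀ (abs_nonneg _) h3 2
  rw [Real.sq_sqrt hx2, sq_abs] at h4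
  rw [mem_closedBall, dist_zero_right]
  apply le_of_pow_le_pow_left₀ (n := 2) (by norm_num) hR
  rw [hn]; linarith

theorem result (n : ℕ) (A : Set (EuclideanSpace ℝ (Fin n))) (hA : IsCompact A)
    (hint : (interior A).Nonempty) (u : ℕ → EuclideanSpace ℝ (Fin n)) (hu : ∀ i, ‖u i‖ = 1)
    (r : ℝ) (hr : 0 ≤ r)
    (hvol : volume (closedBall (0 : EuclideanSpace ℝ (Fin n)) r) = volume A)
    (φ : ℕ → ℕ) (_hφ : StrictMono φ)
    (hsub : Tendsto (fun j => hausdorffEDist (iter u A (φ j)) (closedBall 0 r)) atTop (𝓝 0)) :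
    Tendsto (fun i => hausdorffEDist (iter u A i) (closedBall 0 r)) atTop (𝓝 0) := by
  have hn : n ≠ 0 := by
    rintro rfl
    have := hu 0
    rw [Subsingleton.elim (u 0) 0] at this
    simp at this
  have hApos : 0 < volume A := Measure.measure_pos_of_nonempty_interior _ hint
  set v := volume (ball (0 : EuclideanSpace ℝ (Fin n)) 1) with hv
  have hv0 : v ≠ 0 := (measure_ball_pos _ _ one_pos).ne'
  have hv1 : v ≠ ⊤ := measure_ball_lt_top.ne
  have hcb : ∀ (x : EuclideanSpace ℝ (Fin n)) (s : ℝ), 0 ≤ s →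
      volume (closedBall x s) = ENNReal.ofReal (s ^ n) * v := fun x s hs => by
    rw [Measure.addHaar_closedBall _ _ hs]; simp [hv]
  have hr0 : 0 < r := by
    rcases hr.eq_or_lt with h | h
    · rw [← hvol, hcb _ _ hr, ← h, zero_pow hn] at hApos; simp at hApos
    · exact h
  have hF : ∀ i, ∃ F, MeasurableSet F ∧ F ⊆ iter u A i ∧ volume A ≤ volume F := by
    intro i
    induction i with
    | zero => exact ⟨A, hA.measurableSet, subset_rfl, le_rfl⟩
    | succ i ih =>
      obtain ⟨F, h1, h2, h3⟩ := ih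
      obtain ⟨G, g1, g2, g3⟩ := core (u i) (hu i) h1 h2
      exact ⟨G, g1, g2, h3.trans g3⟩
  rw [ENNReal.tendsto_nhds_zero] at hsub ⊢
  intro η hη
  obtain ⟨η', hη'0, hη'⟩ : ∃ η' : ℝ, 0 < η' ∧ ENNReal.ofReal η' ≤ η := by
    by_cases h : η = ⊤
    · exact ⟨1, one_pos, by simp [h]⟩
    · exact ⟨η.toReal, ENNReal.toReal_pos hη.ne' h, by rw [ENNReal.ofReal_toReal h]⟩
  set ρ := min (η' / 2) r with hρ
  have hρ0 : 0 < ρ := lt_min (by linarith) hr0
  have hρ1 : ρ ≤ η' / 2 := min_le_left _ _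
  have hρ2 : ρ ≤ r := min_le_right _ _
  obtain ⟨ε, hε0, hε1, hε2⟩ : ∃ ε : ℝ, 0 < ε ∧ ε ≤ η' ∧ (r + ε) ^ n < r ^ n + ρ ^ n := by
    have c : ContinuousAt (fun e : ℝ => (r + e) ^ n) 0 := by fun_prop
    have := c.eventually (gt_mem_nhds (show (r + 0) ^ n < r ^ n + ρ ^ n by
      simp [pow_pos hρ0]))
    obtain ⟨δ, hδ, h⟩ := Metric.eventually_nhds_iff.1 this
    refine ⟨min (δ / 2) η', lt_min (by linarith) hη'0, min_le_right _ _, h ?_⟩
    rw [Real.dist_eq, sub_zero, abs_of_pos (lt_min (by linarith) hη'0)]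
    exact (min_le_left _ _).trans_lt (by linarith)
  obtain ⟨j, hj⟩ := (hsub (ENNReal.ofReal (ε / 2)) (by simpa using hε0)).exists
  have h0 : iter u A (φ j) ⊆ closedBall 0 (r + ε) := by
    intro x hx
    obtain ⟨y, hy, hxy⟩ := exists_edist_lt_of_hausdorffEDist_lt hx
      (hj.trans_lt ((ENNReal.ofReal_lt_ofReal_iff hε0).2 (show ε / 2 < ε by linarith)))
    rw [edist_lt_ofReal] at hxy
    rw [mem_closedBall] at hy ⊢
    linarith [dist_triangle x y 0]
  have h1 : ∀ i, φ j ≤ i → iter u A i ⊆ closedBall 0 (r + ε) := by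
    intro i hi
    induction i, hi using Nat.le_induction with
    | base => exact h0
    | succ i _ ih => exact ball_keep _ (hu i) ih
  filter_upwards [eventually_ge_atTop (φ j)] with i hi
  refine le_trans (hausdorffEDist_le_of_mem_edist ?_ ?_) hη'
  · intro x hx
    have hxR : ‖x‖ ≤ r + ε := by simpa using h1 i hi hx
    refine ⟨(r / (r + ε)) • x, ?_, ?_⟩
    · rw [mem_closedBall, dist_zero_right, norm_smul, Real.norm_eq_abs, abs_of_pos (by positivity),
        div_mul_eq_mul_div, div_le_iff₀ (by positivity)]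
      nlinarith
    · rw [edist_dist, dist_eq_norm]
      apply ENNReal.ofReal_le_ofReal
      have : x - (r / (r + ε)) • x = (ε / (r + ε)) • x := by
        rw [show ε / (r + ε) = 1 - r / (r + ε) by field_simp; ring, sub_smul, one_smul]
      rw [this, norm_smul, Real.norm_eq_abs, abs_of_pos (by positivity),
        div_mul_eq_mul_div, div_le_iff₀ (by positivity)]
      nlinarith
  · intro x hx
    have hxR : ‖x‖ ≤ r := by simpa using hx
    by_contra hcon
    push Not at hcon
    obtain ⟨F, f1, f2, f3⟩ := hF i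
    set y := (1 - ρ / r) • x with hy
    have hq : ρ / r ≤ 1 := (div_le_one hr0).2 hρ2
    have hq0 : 0 < ρ / r := by positivity
    have hyn : ‖y‖ ≤ r - ρ := by
      rw [hy, norm_smul, Real.norm_eq_abs, abs_of_nonneg (by linarith)]
      calc _ ≤ (1 - ρ / r) * r := mul_le_mul_of_nonneg_left hxR (by linarith)
        _ = r - ρ := by field_simp
    have hxy : dist x y ≤ ρ := by
      have : x - y = (ρ / r) • x := by rw [hy, sub_smul, one_smul]; abel
      rw [dist_eq_norm, this, norm_smul, Real.norm_eq_abs, abs_of_pos hq0]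
      calc _ ≤ ρ / r * r := mul_le_mul_of_nonneg_left hxR hq0.le
        _ = ρ := by field_simp
    have hdis : Disjoint F (closedBall y ρ) := by
      rw [Set.disjoint_left]
      intro z hz hz'
      have := hcon z (f2 hz)
      rw [edist_dist, ENNReal.ofReal_lt_ofReal_iff_of_nonneg hη'0.le] at this
      rw [mem_closedBall, dist_comm] at hz'
      linarith [dist_triangle x y z]
    have hsubs : F ∪ closedBall y ρ ⊆ closedBall 0 (r + ε) := by
      refine Set.union_subset (f2.trans (h1 i hi)) fun z hz => ?_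
      rw [mem_closedBall] at hz ⊢
      have := dist_triangle z y 0
      rw [dist_zero_right y] at this
      linarith
    have hm := measure_mono (μ := volume) hsubs
    rw [measure_union hdis measurableSet_closedBall, hcb _ _ hρ0.le, hcb _ _ (by positivity)] at hm
    rw [← hvol, hcb _ _ hr] at f3
    have h5 := (add_le_add_left f3 _).trans hm
    rw [← add_mul, ← ENNReal.ofReal_add (by positivity) (by positivity),
      ENNReal.mul_le_mul_iff_left hv0 hv1, ENNReal.ofReal_le_ofReal_iff (by positivity)] at h5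
    linarith

end Pool.Agent.Results.MP_c699aa_gt.Full
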